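import Pool.Agent.TMX.Stmts

set_option autoImplicit false

/-!
# TMX, row DEC: decomposition into monotone pieces
-/

namespace Pool.Agent.TMX.H58

open Pool.Agent.TMX Finset

/-- There is an alternating chain of `m` strict steps which starts at `x` with a step down. -/
def Alt : ℕ → (ℕ → ℝ) → ℕ → ℕ → Prop
  | 0, _, _, _ => True
  | (m + 1), u, x, q => ∃ y, x < y ∧ y ≤ q ∧ u y < u x ∧ Alt m (fun i => - u i) y q

/-- No chain of length `m` which starts down on `[p, q]`. -/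
def No (m : ℕ) (u : ℕ → ℝ) (p q : ℕ) : Prop := ∀ x, p ≤ x → x ≤ q → ¬ Alt m u x q

theorem last (u : ℕ → ℝ) (p q : ℕ) (h : No 1 u p q) : Up u p q := by
  intro i j hpi hij hjq
  by_contra hn
  push Not at hn
  have hne : i ≠ j := by
    rintro rfl
    exact lt_irrefl _ hn
  exact h i hpi (hij.trans hjq) ⟨j, lt_of_le_of_ne hij hne, hjq, hn, trivial⟩

theorem exists_top (u : ℕ → ℝ) (p q : ℕ) (hpq : p ≤ q) :
    ∃ c, p ≤ c ∧ c ≤ q ∧ Up u p c ∧ (c < q → u (c + 1) < u c) := by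
  classical
  have hne : ((Icc p q).filter fun c => Up u p c).Nonempty := by
    refine ⟨p, ?_⟩
    rw [mem_filter, mem_Icc]
    refine ⟨⟨le_refl _, hpq⟩, ?_⟩
    intro i j h1 h2 h3
    have : i = j := by omega
    rw [this]
  obtain ⟨c, hc, hmax⟩ := Finset.exists_max_image ((Icc p q).filter fun c => Up u p c) id hne
  rw [mem_filter, mem_Icc] at hc
  refine ⟨c, hc.1.1, hc.1.2, hc.2, fun hcq => ?_⟩
  by_contra hn
  push Not at hn
  have hmem : c + 1 ∈ (Icc p q).filter fun c => Up u p c := by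
    rw [mem_filter, mem_Icc]
    refine ⟨⟨by omega, by omega⟩, ?_⟩
    intro i j h1 h2 h3
    rcases Nat.lt_or_ge c j with hj | hj
    · have hj' : j = c + 1 := by omega
      rcases Nat.lt_or_ge c i with hi | hi
      · have hi' : i = c + 1 := by omega
        rw [hi', hj']
      · rw [hj']
        exact (hc.2 i c h1 hi (le_refl _)).trans hn
    · exact hc.2 i j h1 h2 hj
  have := hmax _ hmem
  simp only [id] at this
  omega

theorem step (m : ℕ) (u : ℕ → ℝ) (p q : ℕ) (hpq : p ≤ q) (h : No (m + 2) u p q) :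
    ∃ c, p ≤ c ∧ c ≤ q ∧ Up u p c ∧ No (m + 1) (fun i => - u i) c q := by
  obtain ⟨c, hpc, hcq, hup, hdown⟩ := exists_top u p q hpq
  refine ⟨c, hpc, hcq, hup, ?_⟩
  rintro x₀ hcx hxq ⟨x₁, h1, h2, h3, h4⟩
  have hlt : c < q := by omega
  have hd := hdown hlt
  obtain ⟨v, hv, hmin⟩ := Finset.exists_min_image (Icc c x₁) u ⟨c, by rw [mem_Icc]; omega⟩
  rw [mem_Icc] at hv
  have e1 : u v ≤ u (c + 1) := hmin _ (by rw [mem_Icc]; omega)
  have e2 : u v ≤ u x₀ := hmin _ (by rw [mem_Icc]; omega)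
  have h3' : u x₀ < u x₁ := by linarith
  have hcv : c ≠ v := by
    rintro rfl
    linarith
  have hvx : v ≠ x₁ := by
    rintro rfl
    linarith
  refine h c hpc hcq ⟨v, by omega, by omega, by linarith, x₁, by omega, h2, ?_, h4⟩
  show - u x₁ < - u v
  linarith

theorem step' (m : ℕ) (u : ℕ → ℝ) (p q : ℕ) (hpq : p ≤ q) (h : No (m + 2) (fun i => - u i) p q) :
    ∃ c, p ≤ c ∧ c ≤ q ∧ Dn u p c ∧ No (m + 1) u c q := by
  obtain ⟨c, h1, h2, h3, h4⟩ := step m _ p q hpq h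
  refine ⟨c, h1, h2, ?_, ?_⟩
  · intro i j hi hj hk
    have := h3 i j hi hj hk
    linarith
  · simpa only [neg_neg] using h4

theorem last' (u : ℕ → ℝ) (p q : ℕ) (h : No 1 (fun i => - u i) p q) : Dn u p q := by
  intro i j hi hj hk
  have := last _ p q h i j hi hj hk
  linarith

theorem dec : Dec := by
  refine ⟨?_, ?_, ?_⟩
  · intro N u h
    have h0 : No 4 u 0 N := by
      rintro a - - ⟨b, h1, -, h2, c, h3, -, h4, d, h5, -, h6, e, h7, h8, h9, -⟩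
      refine h a b c d e h1 h3 h5 h7 h8 h2 ?_ ?_ ?_ <;> linarith
    obtain ⟨k, k1, k2, k3, k4⟩ := step 2 u 0 N (Nat.zero_le _) h0
    obtain ⟨w, w1, w2, w3, w4⟩ := step' 1 u k N k2 k4
    obtain ⟨l, l1, l2, l3, l4⟩ := step 0 u w N w2 w4
    exact ⟨k, w, l, w1, l1, l2, k3, w3, l3, last' u l N l4⟩
  · intro p q u hpq h
    have h0 : No 4 (fun i => - u i) p q := by
      rintro a ha - ⟨b, h1, -, h2, c, h3, -, h4, d, h5, -, h6, e, h7, h8, h9, -⟩
      refine h a b c d e ha h1 h3 h5 h7 h8 ?_ ?_ ?_ ?_ <;> linarith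
    obtain ⟨y, y1, y2, y3, y4⟩ := step' 2 u p q hpq h0
    obtain ⟨z, z1, z2, z3, z4⟩ := step 1 u y q y2 y4
    obtain ⟨z', t1, t2, t3, t4⟩ := step' 0 u z q z2 z4
    exact ⟨y, z, z', y1, z1, t1, t2, y3, z3, t3, last u z' q t4⟩
  · intro N u h
    have h0 : No 6 u 0 N := by
      rintro a - - ⟨b, h1, -, h2, c, h3, -, h4, d, h5, -, h6, e, h7, -, h8, f, h9, -, h10, g,
        h11, h12, h13, -⟩
      refine h a b c d e f g h1 h3 h5 h7 h9 h11 h12 ?_ ?_ ?_ ?_ ?_ ?_ <;> linarith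
    obtain ⟨x₁, a1, a2, a3, a4⟩ := step 4 u 0 N (Nat.zero_le _) h0
    obtain ⟨y₁, b1, b2, b3, b4⟩ := step' 3 u x₁ N a2 a4
    obtain ⟨x₂, c1, c2, c3, c4⟩ := step 2 u y₁ N b2 b4
    obtain ⟨y₂, d1, d2, d3, d4⟩ := step' 1 u x₂ N c2 c4
    obtain ⟨x₃, e1, e2, e3, e4⟩ := step 0 u y₂ N d2 d4
    exact ⟨x₁, y₁, x₂, y₂, x₃, b1, c1, d1, e1, e2, a3, b3, c3, d3, e3, last' u x₃ N e4⟩

end Pool.Agent.TMX.H58
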